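import Pool.Agent.Lib.MP_becf51_an.Upper
import Pool.Agent.Lib.MP_becf51_an.Lower

/-! The mini-max ratios `c_N` for self-adjoint Toeplitz matrices are bounded by, and converge to,
`π / (2 D)`, where `D` is the real solution of `cos D = D`. -/

namespace Pool.Agent.Results.MP_becf51_an.DottieLimit

open MeasureTheory Filter Topology
open scoped ENNReal
open Pool.Agent.Lib.MP_becf51_an

/-- `L^∞` of the circle `ℝ / ℤ` with normalised Haar (Lebesgue) measure. -/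
abbrev Linf : Type := Lp ℂ ∞ (AddCircle.haarAddCircle : Measure UnitAddCircle)

/-- Complex self-adjoint Toeplitz matrices with entries `a_{j-k}`, `0 ≤ j, k ≤ N`. -/
def IsSAToeplitz {N : ℕ} (A : Matrix (Fin (N + 1)) (Fin (N + 1)) ℂ) : Prop :=
  A.IsHermitian ∧ ∃ a : ℤ → ℂ, ∀ j k : Fin (N + 1), A j k = a ((j : ℤ) - (k : ℤ))

/-- The spectral norm: the operator norm on Euclidean space `ℂ^{N+1}`. -/
noncomputable def opNorm {N : ℕ} (A : Matrix (Fin (N + 1)) (Fin (N + 1)) ℂ) : ℝ :=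
  ‖Matrix.toEuclideanCLM (n := Fin (N + 1)) (𝕜 := ℂ) A‖

/-- The bounded symbols inducing `A`. -/
def G {N : ℕ} (A : Matrix (Fin (N + 1)) (Fin (N + 1)) ℂ) : Set Linf :=
  {f | ∀ j k : Fin (N + 1), fourierCoeff f ((j : ℤ) - (k : ℤ)) = A j k}

/-- `c_A`: the least sup norm of a symbol inducing `A`. -/
noncomputable def cA {N : ℕ} (A : Matrix (Fin (N + 1)) (Fin (N + 1)) ℂ) : ℝ :=
  sInf {t | ∃ f ∈ G A, t = ‖f‖}

/-- `c_N`: the largest ratio `c_A / ‖A‖`. -/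
noncomputable def cN (N : ℕ) : ℝ :=
  sSup {t | ∃ A : Matrix (Fin (N + 1)) (Fin (N + 1)) ℂ,
    IsSAToeplitz A ∧ A ≠ 0 ∧ t = cA A / opNorm A}

lemma opNorm_pos {N : ℕ} {A : Matrix (Fin (N + 1)) (Fin (N + 1)) ℂ} (hA : A ≠ 0) :
    0 < opNorm A := by
  refine norm_pos_iff.mpr fun h => hA ?_
  exact (map_eq_zero_iff _ (EquivLike.injective _)).mp h

lemma bdd {N : ℕ} (A : Matrix (Fin (N + 1)) (Fin (N + 1)) ℂ) :
    BddBelow {t | ∃ f ∈ G A, t = ‖f‖} := by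
  refine ⟨0, ?_⟩
  rintro t ⟨g, -, rfl⟩
  exact norm_nonneg _

lemma ratio_le {D : ℝ} (hD : Real.cos D = D) (N : ℕ) :
    Real.pi / (2 * D) ∈ upperBounds {t | ∃ A : Matrix (Fin (N + 1)) (Fin (N + 1)) ℂ,
      IsSAToeplitz A ∧ A ≠ 0 ∧ t = cA A / opNorm A} := by
  rintro t ⟨A, hA, h0, rfl⟩
  rw [div_le_iff₀ (opNorm_pos h0)]
  refine le_of_forall_pos_le_add fun δ hδ => ?_
  obtain ⟨f, hf, hf'⟩ := exists_symbol_le hD A hA.1 hA.2 hδ
  exact (csInf_le (bdd A) ⟨f, hf, rfl⟩).trans hf'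

/-- With `D` the real solution of `cos D = D`, the number `π / (2 D)` exceeds two, bounds every
`c_N`, and is the limit of `c_N`. -/
theorem result : ∃ D : ℝ, Real.cos D = D ∧ 2 < Real.pi / (2 * D) ∧
    (∀ N : ℕ, cN N ≤ Real.pi / (2 * D)) ∧ Tendsto cN atTop (𝓝 (Real.pi / (2 * D))) := by
  obtain ⟨D, -, hD⟩ := intermediate_value_Icc' (f := fun x : ℝ => Real.cos x - x) zero_le_one
    (by fun_prop) (show (0 : ℝ) ∈ _ from ⟨sub_nonpos.2 (Real.cos_le_one 1), by simp⟩)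
  rw [sub_eq_zero] at hD
  obtain ⟨d0, d1⟩ := dottie_pos hD
  have hp := Real.pi_pos
  have hup : ∀ N : ℕ, cN N ≤ Real.pi / (2 * D) := fun N =>
    Real.sSup_le (ratio_le hD N) (by positivity)
  refine ⟨D, hD, by rw [lt_div_iff₀ (by positivity)]; linarith, hup,
    tendsto_order.2 ⟨fun a ha => ?_, fun a ha => .of_forall fun N => (hup N).trans_lt ha⟩⟩
  obtain ⟨c, h1, h2⟩ := exists_between (max_lt ha (show 0 < Real.pi / (2 * D) by positivity))
  filter_upwards [not_bd hD ((le_max_right _ _).trans h1.le) h2] with N hN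
  by_contra h
  refine hN fun A hA hT hn => ?_
  have h0 : A ≠ 0 := by
    rintro rfl
    simp at hn
  have h3 : cA A / opNorm A ≤ cN N := le_csSup ⟨_, ratio_le hD N⟩ ⟨A, ⟨hA, hT⟩, h0, rfl⟩
  rw [opNorm, hn, div_one] at h3
  obtain ⟨g, hg, -⟩ := exists_symbol A hT
  obtain ⟨_, ⟨f, hf, rfl⟩, h4⟩ := exists_lt_of_csInf_lt (s := {t | ∃ f ∈ G A, t = ‖f‖})
    ⟨‖g‖, g, hg, rfl⟩ (h3.trans_lt ((not_lt.1 h).trans_lt ((le_max_left _ _).trans_lt h1)))
  exact ⟨f, hf, h4.le⟩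

end Pool.Agent.Results.MP_becf51_an.DottieLimit
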