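import Pool.Agent.Lib.MP_becf51_an.Main

/-! The mini-max ratio `c_N` for self-adjoint Toeplitz matrices exceeds `π / 2` for all `N ≥ 2`. -/

namespace Pool.Agent.Results.MP_becf51_an.RatioGtHalfPi

open MeasureTheory
open scoped ENNReal

/-- `L^∞` of the circle `ℝ / ℤ` with normalised Haar (Lebesgue) measure. -/
abbrev Linf : Type := Lp ℂ ∞ (AddCircle.haarAddCircle : Measure UnitAddCircle)

/-- Complex self-adjoint Toeplitz matrices `(a_{j-k})`, `0 ≤ j, k ≤ N`. -/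
def IsSAToeplitz {N : ℕ} (A : Matrix (Fin (N + 1)) (Fin (N + 1)) ℂ) : Prop :=
  A.IsHermitian ∧ ∃ a : ℤ → ℂ, ∀ j k : Fin (N + 1), A j k = a ((j : ℤ) - (k : ℤ))

/-- The spectral norm: the operator norm on Euclidean space `ℂ^{N+1}`. -/
noncomputable def opNorm {N : ℕ} (A : Matrix (Fin (N + 1)) (Fin (N + 1)) ℂ) : ℝ :=
  ‖Matrix.toEuclideanCLM (n := Fin (N + 1)) (𝕜 := ℂ) A‖

/-- The bounded symbols inducing `A`. -/
def G {N : ℕ} (A : Matrix (Fin (N + 1)) (Fin (N + 1)) ℂ) : Set Linf :=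
  {f | ∀ j k : Fin (N + 1), fourierCoeff f ((j : ℤ) - (k : ℤ)) = A j k}

/-- `c_A`: the least sup norm of a symbol inducing `A`. -/
noncomputable def cA {N : ℕ} (A : Matrix (Fin (N + 1)) (Fin (N + 1)) ℂ) : ℝ :=
  sInf {t | ∃ f ∈ G A, t = ‖f‖}

/-- `c_N`: the largest ratio `c_A / ‖A‖`. -/
noncomputable def cN (N : ℕ) : ℝ :=
  sSup {t | ∃ A : Matrix (Fin (N + 1)) (Fin (N + 1)) ℂ,
    IsSAToeplitz A ∧ A ≠ 0 ∧ t = cA A / opNorm A}

lemma opNorm_pos {N : ℕ} {A : Matrix (Fin (N + 1)) (Fin (N + 1)) ℂ} (hA : A ≠ 0) :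
    0 < opNorm A := by
  refine norm_pos_iff.mpr fun h => hA ?_
  exact (map_eq_zero_iff _ (EquivLike.injective _)).mp h

theorem result : ∀ N : ℕ, 2 ≤ N → Real.pi / 2 < cN N := by
  intro N hN
  obtain ⟨A, hH, hT, h0, hn, c, hc, hf⟩ := Pool.Agent.Lib.MP_becf51_an.exists_good N hN
  have hbdd : BddAbove {t | ∃ A : Matrix (Fin (N + 1)) (Fin (N + 1)) ℂ,
      IsSAToeplitz A ∧ A ≠ 0 ∧ t = cA A / opNorm A} := by
    refine ⟨2 * N + 1, ?_⟩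
    rintro t ⟨B, hB, hB0, rfl⟩
    obtain ⟨f, hf1, hf2⟩ := Pool.Agent.Lib.MP_becf51_an.exists_symbol B hB.2
    rw [div_le_iff₀ (opNorm_pos hB0)]
    refine le_trans (csInf_le ⟨0, ?_⟩ ⟨f, hf1, rfl⟩) hf2
    rintro t ⟨g, -, rfl⟩
    exact norm_nonneg _
  have hcA : c ≤ cA A := by
    obtain ⟨f, hf1, -⟩ := Pool.Agent.Lib.MP_becf51_an.exists_symbol A hT
    refine le_csInf ⟨‖f‖, f, hf1, rfl⟩ ?_
    rintro t ⟨g, hg, rfl⟩
    exact hf g hg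
  refine lt_of_lt_of_le ?_ (le_csSup hbdd ⟨A, ⟨hH, hT⟩, h0, rfl⟩)
  have hp := opNorm_pos h0
  rw [lt_div_iff₀ hp]
  have hpi := Real.pi_pos
  have : Real.pi / 2 * opNorm A ≤ Real.pi / 2 * 1 :=
    mul_le_mul_of_nonneg_left hn (by positivity)
  linarith

end Pool.Agent.Results.MP_becf51_an.RatioGtHalfPi
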